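import Pool.Agent.K3h43.DSL.Asm
import Pool.Agent.K3h7.DSL.Arith
import Pool.Agent.K3h7.DSL.DimD
import Pool.Agent.K3h66.DSL.E

set_option autoImplicit false

namespace Pool.Agent.K3h43.DSL

theorem all : DimV ∧ MapV ∧ Zero4 :=
  core K3h66.DSL.t_Exp4 K3h66.DSL.t_Exp5 K3h7.DSL.t_DimD K3h7.DSL.t_Arith

end Pool.Agent.K3h43.DSL
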