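import Pool.Agent.K3h43.DSL.Zero

set_option autoImplicit false

namespace Pool.Agent.K3h43.DSL

open Pool.Agent.H777R4.DM Pool.Agent.R241.DL MvPolynomial

/-- the coefficient of a word as a linear map -/
noncomputable def coL (l : List (Fin 2)) : A →ₗ[ℚ] ℚ where
  toFun P := co P l
  map_add' P Q := co_add P Q l
  map_smul' c P := co_smul c P l

/-- the map to polynomials -/
noncomputable def FF (N : ℕ) : A →ₗ[ℚ] R :=
  ∑ a ∈ Finset.range (N + 1), ∑ b ∈ Finset.range (N + 1), ∑ c ∈ Finset.range (N + 1),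
    ∑ d ∈ Finset.range (N + 1), (coL (blk [a, b, c, d])).smulRight
      ((0 : R) ^ a * (-X 0) ^ b * (-X 0 - X 1) ^ c * (-X 0 - X 1 - X 2) ^ d)

theorem FF_apply (N : ℕ) (ψ : A) : FF N ψ =
    ∑ a ∈ Finset.range (N + 1), ∑ b ∈ Finset.range (N + 1), ∑ c ∈ Finset.range (N + 1),
    ∑ d ∈ Finset.range (N + 1), co ψ (blk [a, b, c, d]) •
      ((0 : R) ^ a * (-X 0) ^ b * (-X 0 - X 1) ^ c * (-X 0 - X 1 - X 2) ^ d) := by
  unfold FF
  simp only [LinearMap.sum_apply, LinearMap.smulRight_apply]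
  rfl

theorem eval_FF (N : ℕ) (ψ : A) (hE : Exp4) (hlen : LenHom ψ N) (v : Fin 3 → ℚ) :
    eval v (FF N ψ) = ev [0, -v 0, -v 0 - v 1, -v 0 - v 1 - v 2] ψ := by
  rw [hE ψ N hlen, FF_apply]
  simp only [map_sum, smul_eval]
  refine Finset.sum_congr rfl fun a _ => Finset.sum_congr rfl fun b _ =>
      Finset.sum_congr rfl fun c _ => Finset.sum_congr rfl fun d _ => ?_
  simp [mul_assoc]

theorem hom_FF (N : ℕ) (ψ : A) (hlen : LenHom ψ N) (h3 : 3 ≤ N) :
    (FF N ψ).IsHomogeneous (N - 3) := by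
  rw [FF_apply]
  refine IsHomogeneous.sum _ _ _ fun a _ => IsHomogeneous.sum _ _ _ fun b _ =>
    IsHomogeneous.sum _ _ _ fun c _ => IsHomogeneous.sum _ _ _ fun d _ => ?_
  by_cases h : co ψ (blk [a, b, c, d]) = 0
  · rw [h, zero_smul]
    exact isHomogeneous_zero _ _ _
  · have h1 := hlen _ h
    have h2 : a + b + c + d = N - 3 := by
      simp [blk] at h1
      omega
    rw [← h2]
    refine (homogeneousSubmodule (Fin 3) ℚ _).smul_mem _ ?_
    rw [mem_homogeneousSubmodule]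
    have X0 : (X 0 : R).IsHomogeneous 1 := isHomogeneous_X _ _
    have X1 : (X 1 : R).IsHomogeneous 1 := isHomogeneous_X _ _
    have X2 : (X 2 : R).IsHomogeneous 1 := isHomogeneous_X _ _
    have e0 : ((0 : R) ^ a).IsHomogeneous a := by
      simpa using (isHomogeneous_zero (Fin 3) ℚ 1).pow a
    have e1 : ((-X 0 : R) ^ b).IsHomogeneous b := by simpa using X0.neg.pow b
    have e2 : ((-X 0 - X 1 : R) ^ c).IsHomogeneous c := by simpa using (X0.neg.sub X1).pow c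
    have e3 : ((-X 0 - X 1 - X 2 : R) ^ d).IsHomogeneous d := by
      simpa using ((X0.neg.sub X1).sub X2).pow d
    exact ((e0.mul e1).mul e2).mul e3

theorem eval_sb (v : Fin 3 → ℚ) (a b c q : R) :
    eval v (sb a b c q) = eval ![eval v a, eval v b, eval v c] q := by
  unfold sb
  rw [← coe_aeval_eq_eval, ← coe_aeval_eq_eval]
  show (aeval v) (aeval ![a, b, c] q) = aeval _ q
  rw [← AlgHom.comp_apply]
  congr 1
  apply algHom_ext
  intro i
  fin_cases i <;> simp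

theorem t_MapV (hL : Layer3) (hE : Exp4) : MapV := by
  intro N hN h3
  refine ⟨FF N, fun ψ hdm hlen hm => ?_⟩
  have hR := hL ψ N hN hdm hlen hm
  have T := eval_FF N ψ hE hlen
  have T' : ∀ x y z : ℚ, eval ![x, y, z] (FF N ψ) = ev [0, -x, -x - y, -x - y - z] ψ := by
    intro x y z
    rw [T]
    rfl
  refine ⟨⟨hom_FF N ψ hlen h3, ?_, ?_, ?_, ?_⟩, ?_⟩
  · apply MvPolynomial.funext
    intro v
    rw [eval_sb, T', T]
    have h1 : ev [0 + -v 0, -v 1 + -v 0, -v 1 - v 2 + -v 0, v 0 + -v 0] ψ =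
      ev [0, -v 1, -v 1 - v 2, v 0] ψ := hR.tr 0 (-v 1) (-v 1 - v 2) (v 0) (-v 0)
    have h2 : ev [-v 0, -v 0 - v 1, -v 0 - v 1 - v 2, 0] ψ =
      ev [0, -v 0, -v 0 - v 1, -v 0 - v 1 - v 2] ψ := hR.cyc 0 (-v 0) (-v 0 - v 1) (-v 0 - v 1 - v 2)
    simp only [map_neg, map_add, eval_X]
    rw [← h2]
    ring_nf at h1 ⊢
    exact h1.symm
  · apply MvPolynomial.funext
    intro v
    rw [eval_sb, T', T]
    have h1 : ev [0 + -(v 0 + v 1 + v 2), v 2 + -(v 0 + v 1 + v 2), v 2 + v 1 + -(v 0 + v 1 + v 2),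
      v 2 + v 1 + v 0 + -(v 0 + v 1 + v 2)] ψ = ev [0, v 2, v 2 + v 1, v 2 + v 1 + v 0] ψ :=
      hR.tr 0 (v 2) (v 2 + v 1) (v 2 + v 1 + v 0) (-(v 0 + v 1 + v 2))
    have h2 : ev [-v 0 - v 1 - v 2, -v 0 - v 1, -v 0, 0] ψ =
      ev [0, -v 0, -v 0 - v 1, -v 0 - v 1 - v 2] ψ := hR.rev 0 (-v 0) (-v 0 - v 1) (-v 0 - v 1 - v 2)
    simp only [map_neg, eval_X]
    rw [← h2]
    ring_nf at h1 ⊢
    exact h1.symm
  · apply MvPolynomial.funext
    intro v
    rw [map_add, map_add, eval_sb, eval_sb, T', T', T, map_zero]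
    have h1 : ev [0, -v 0, -v 0 - v 1, -v 0 - v 1 - v 2] ψ +
      ev [0, -v 0 - v 1, -v 0, -v 0 - v 1 - v 2] ψ +
      ev [0, -v 0 - v 1, -v 0 - v 1 - v 2, -v 0] ψ = 0 :=
      hR.ins 0 (-v 0) (-v 0 - v 1) (-v 0 - v 1 - v 2)
    simp only [map_neg, map_add, eval_X]
    refine Eq.trans ?_ h1
    ring_nf
  · apply MvPolynomial.funext
    intro v
    rw [map_add, map_add, eval_sb, eval_sb, T', T', T, map_zero]
    have h1 : ev [v 0 + v 1 + v 2, v 1 + v 2, v 2, 0] ψ + ev [v 0 + v 1 + v 2, v 0 + v 2, v 2, 0] ψ +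
      ev [v 0 + v 1 + v 2, v 0 + v 2, v 0, 0] ψ = 0 := hR.shu (v 0) (v 1) (v 2)
    have t : ∀ a b c d t : ℚ, ev [a + t, b + t, c + t, d + t] ψ = ev [a, b, c, d] ψ := hR.tr
    rw [← t (v 0 + v 1 + v 2) (v 1 + v 2) (v 2) 0 (-(v 0 + v 1 + v 2)),
      ← t (v 0 + v 1 + v 2) (v 0 + v 2) (v 2) 0 (-(v 0 + v 1 + v 2)),
      ← t (v 0 + v 1 + v 2) (v 0 + v 2) (v 0) 0 (-(v 0 + v 1 + v 2))] at h1
    simp only [eval_X]
    refine Eq.trans ?_ h1
    ring_nf
  · intro h0 u hu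
    have hz : ∀ x y z : ℚ, ev [0, x, y, z] ψ = 0 := by
      intro x y z
      have h1 := T' (-x) (x - y) (y - z)
      rw [h0, map_zero] at h1
      refine Eq.trans ?_ h1.symm
      ring_nf
    have hz' : ∀ z0 z1 z2 z3 : ℚ, ev [z0, z1, z2, z3] ψ = 0 := by
      intro z0 z1 z2 z3
      have h1 : ev [z0 + -z0, z1 + -z0, z2 + -z0, z3 + -z0] ψ = ev [z0, z1, z2, z3] ψ :=
        hR.tr z0 z1 z2 z3 (-z0)
      rw [← h1, add_neg_cancel]
      exact hz _ _ _
    have E : ∀ z0 z1 z2 z3 : ℚ, ev [z0, z1, z2, z3] ψ = S4 (N + 1) (fun a b c d =>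
      co ψ (blk [a, b, c, d]) * (z0 ^ a * z1 ^ b * z2 ^ c * z3 ^ d)) := hE ψ N hlen
    have h1 := uni4 (N + 1) (fun a b c d => co ψ (blk [a, b, c, d])) (by
      intro z0 z1 z2 z3
      rw [← E]
      exact hz' z0 z1 z2 z3)
    by_contra hcon
    have h4 : u.count 0 = 3 := by
      have := hm u hu
      omega
    obtain ⟨a, l, k1, k2, k3⟩ := exists_blk u
    have hlu := hlen u hu
    rw [h4] at k1
    obtain ⟨b, l, rfl⟩ := List.exists_cons_of_length_eq_add_one (show l.length = 2 + 1 by simpa using k1)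
    obtain ⟨c, l, rfl⟩ := List.exists_cons_of_length_eq_add_one (show l.length = 1 + 1 by simpa using k1)
    obtain ⟨d, l, rfl⟩ := List.exists_cons_of_length_eq_add_one (show l.length = 0 + 1 by simpa using k1)
    have : l = [] := List.length_eq_zero_iff.1 (by simpa using k1)
    subst this
    apply hu
    rw [← k2]
    have b1 : ∀ x ∈ [a, b, c, d], x < N + 1 := fun x hx => by
      have := k3 x hx
      omega
    exact h1 a (b1 a (by simp)) b (b1 b (by simp)) c (b1 c (by simp)) d (b1 d (by simp))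

end Pool.Agent.K3h43.DSL
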