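import Pool.Agent.K3h43.DSL.DimV
import Pool.Agent.K3h43.DSL.MapV
import Pool.Agent.Y759.DS.Quot
import Pool.Agent.K3h8.DSL.BrickA
import Pool.Agent.K3h22.DSL.L
import Pool.Agent.K3h12.DSL.Sg

set_option autoImplicit false

namespace Pool.Agent.K3h43.DSL

open Pool.Agent.H777R4.DM Pool.Agent.R241.DL

/-- a quotient separated by a linear map -/
theorem quot_map {W : Type} [AddCommGroup W] [Module ℚ W] [Module.Finite ℚ W]
    (V0 U : Submodule ℚ A) (T : V0 →ₗ[ℚ] W) (h : ∀ ψ, T ψ = 0 → (ψ : A) ∈ U) :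
    Module.Finite ℚ (V0 ⧸ U.submoduleOf V0) ∧
      Module.finrank ℚ (V0 ⧸ U.submoduleOf V0) ≤ Module.finrank ℚ W := by
  have hT : LinearMap.ker T ≤ U.submoduleOf V0 := by
    intro ψ hψ
    exact h ψ (LinearMap.mem_ker.1 hψ)
  have e := T.quotKerEquivRange
  have f1 : Module.Finite ℚ (V0 ⧸ LinearMap.ker T) := Module.Finite.equiv e.symm
  have hs := Submodule.factor_surjective hT
  refine ⟨Module.Finite.of_surjective _ hs, ?_⟩
  refine (LinearMap.finrank_le_finrank_of_surjective hs).trans ?_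
  rw [e.finrank_eq]
  exact Submodule.finrank_le _

/-- two steps of a filtration -/
theorem quot_two {W : Type} [AddCommGroup W] [Module ℚ W] [Module.Finite ℚ W]
    (V0 K U : Submodule ℚ A) (f : A →ₗ[ℚ] ℚ) (T : K →ₗ[ℚ] W)
    (hf : ∀ ψ ∈ V0, f ψ = 0 → ψ ∈ K) (h : ∀ ψ, T ψ = 0 → (ψ : A) ∈ U) :
    Module.Finite ℚ (V0 ⧸ U.submoduleOf V0) ∧
      Module.finrank ℚ (V0 ⧸ U.submoduleOf V0) ≤ 1 + Module.finrank ℚ W := by
  let f0 : V0 →ₗ[ℚ] ℚ := f ∘ₗ V0.subtype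
  let i : LinearMap.ker f0 →ₗ[ℚ] K := LinearMap.codRestrict K
    (V0.subtype ∘ₗ (LinearMap.ker f0).subtype) (fun ψ => hf _ ψ.1.2 ψ.2)
  obtain ⟨g, hg⟩ := LinearMap.exists_extend (T ∘ₗ i)
  have h1 := quot_map V0 U (f0.prod g) (by
    intro ψ hψ
    have h2 : f0 ψ = 0 := congrArg Prod.fst hψ
    have h3 : g ψ = 0 := congrArg Prod.snd hψ
    have h4 := LinearMap.congr_fun hg ⟨ψ, h2⟩
    have h5 : T (i ⟨ψ, h2⟩) = 0 := by
      rw [← h3]
      exact h4.symm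
    exact h _ h5)
  refine ⟨h1.1, h1.2.trans ?_⟩
  rw [Module.finrank_prod, Module.finrank_self]

/-- everything but the expansions, the dimension of the dihedral invariants and the arithmetic -/
theorem core (hE4 : Exp4) (hE5 : Exp5) (hD : DimD) (hA : Arith) : DimV ∧ MapV ∧ Zero4 :=
  ⟨t_DimV hD (t_Surj K3h12.DSL.t_ClSg K3h22.DSL.t_Lam) K3h12.DSL.t_VKer hA,
    t_MapV (t_Layer3 K3h8.DSL.t_LieStr hE4) hE4,
    t_Zero4 (t_Layer4 K3h8.DSL.t_LieStr hE5) t_Van4 hE5⟩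

end Pool.Agent.K3h43.DSL
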