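import Pool.Agent.K3h43.DSL.Surj

set_option autoImplicit false

namespace Pool.Agent.K3h43.DSL

open MvPolynomial

theorem V_le_D (d : ℕ) : V d ≤ D d := fun _ h => ⟨h.1, h.2.1, h.2.2.1⟩

theorem V_zero : V 0 = ⊥ := by
  rw [eq_bot_iff]
  rintro q ⟨h1, -, -, h2, -⟩
  obtain ⟨c, rfl⟩ : ∃ c : ℚ, q = C c :=
    ⟨coeff 0 q, totalDegree_eq_zero_iff_eq_C.1 (Nat.le_zero.1 h1.totalDegree_le)⟩
  simp only [algHom_C, algebraMap_eq] at h2
  rw [Submodule.mem_bot]
  have h3 : (3 : ℚ) * c = 0 := by
    have := congrArg (coeff 0) h2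
    simp at this
    linarith
  have : c = 0 := by linarith
  rw [this, C_0]

/-- the functionals on the dihedral invariants -/
noncomputable def LL (e : ℕ) : D (2 * e) →ₗ[ℚ] (Le e → ℚ) × (Le e → ℚ) :=
  (LinearMap.pi fun x : Le e => cl (ex e x) ∘ₗ kt.toLinearMap ∘ₗ (D (2 * e)).subtype).prod
    (LinearMap.pi fun x : Le e => cl (ex e x) ∘ₗ ku.toLinearMap ∘ₗ (D (2 * e)).subtype)

theorem LL_surj (hS : Surj) (e : ℕ) (he : 1 ≤ e) : Function.Surjective (LL e) := by
  rw [← LinearMap.dualMap_injective_iff, injective_iff_map_eq_zero]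
  intro f hf
  have h1 := hS e he (fun x => f (Pi.single x 1, 0)) (fun x => f (0, Pi.single x 1)) (by
    intro Q hQ
    have h2 := LinearMap.congr_fun hf ⟨Q, hQ⟩
    rw [LinearMap.dualMap_apply, LinearMap.zero_apply] at h2
    have h3 : LL e ⟨Q, hQ⟩ = ∑ x : Le e, cl (ex e x) (kt Q) • ((Pi.single x 1, 0) : (Le e → ℚ) × (Le e → ℚ))
        + ∑ x : Le e, cl (ex e x) (ku Q) • ((0, Pi.single x 1) : (Le e → ℚ) × (Le e → ℚ)) := by
      apply Prod.ext
      · funext y
        rw [Prod.fst_add, Prod.fst_sum, Prod.fst_sum]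
        simp only [Prod.smul_mk, smul_zero, Finset.sum_const_zero, add_zero, Pi.smul_apply,
          Finset.sum_apply, Pi.add_apply, Pi.zero_apply]
        simp [LL, Pi.single_apply]
      · funext y
        rw [Prod.snd_add, Prod.snd_sum, Prod.snd_sum]
        simp only [Prod.smul_mk, smul_zero, Finset.sum_const_zero, zero_add, Pi.smul_apply,
          Finset.sum_apply, Pi.add_apply, Pi.zero_apply]
        simp [LL, Pi.single_apply]
    rw [h3, map_add, map_sum, map_sum] at h2
    simp only [map_smul, smul_eq_mul] at h2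
    rw [← h2]
    congr 1 <;> refine Finset.sum_congr rfl fun x _ => mul_comm _ _)
  apply LinearMap.ext
  intro y
  have h3 : y = ∑ x : Le e, y.1 x • ((Pi.single x 1, 0) : (Le e → ℚ) × (Le e → ℚ))
        + ∑ x : Le e, y.2 x • ((0, Pi.single x 1) : (Le e → ℚ) × (Le e → ℚ)) := by
      apply Prod.ext
      · funext z
        rw [Prod.fst_add, Prod.fst_sum, Prod.fst_sum]
        simp [Pi.single_apply]
      · funext z
        rw [Prod.snd_add, Prod.snd_sum, Prod.snd_sum]
        simp [Pi.single_apply]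
  rw [h3, map_add, map_sum, map_sum]
  simp only [map_smul]
  rw [Finset.sum_eq_zero (fun x _ => by rw [h1.1 x, smul_zero]),
    Finset.sum_eq_zero (fun x _ => by rw [h1.2 x, smul_zero])]
  simp

theorem t_DimV (hD : DimD) (hS : Surj) (hK : VKer) (hA : Arith) : DimV := by
  intro d hd
  obtain ⟨e, rfl⟩ := hd.two_dvd
  rcases Nat.eq_zero_or_pos e with rfl | he
  · rw [mul_zero, V_zero]
    exact ⟨inferInstance, by simp⟩
  · obtain ⟨h1, h2⟩ := hD e
    have hfin : Module.Finite ℚ (V (2 * e)) :=
      Submodule.finiteDimensional_of_le (V_le_D _)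
    refine ⟨hfin, ?_⟩
    have h3 := LinearMap.finrank_range_add_finrank_ker (LL e)
    rw [LinearMap.range_eq_top.2 (LL_surj hS e he), finrank_top, Module.finrank_prod,
      Module.finrank_fintype_fun_eq_card, Fintype.card_coe] at h3
    -- the inclusion into the kernel
    let i : V (2 * e) →ₗ[ℚ] LinearMap.ker (LL e) :=
      LinearMap.codRestrict (LinearMap.ker (LL e)) (Submodule.inclusion (V_le_D (2 * e))) (by
        intro Q
        rw [LinearMap.mem_ker]
        apply Prod.ext
        · funext x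
          exact (hK (2 * e) (ex e x) Q Q.2).1
        · funext x
          exact (hK (2 * e) (ex e x) Q Q.2).2)
    have hi : Function.Injective i := by
      intro a b hab
      have := congrArg Subtype.val hab
      exact Submodule.inclusion_injective (V_le_D (2 * e)) this
    have h4 := LinearMap.finrank_le_finrank_of_injective hi
    have h5 := hA e he
    omega

end Pool.Agent.K3h43.DSL
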