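import Pool.Agent.K3h43.DSL.Stm

set_option autoImplicit false

namespace Pool.Agent.K3h43.DSL

open Pool.Agent.H777R4.DM Pool.Agent.R241.DL

/-- five-fold sums -/
def S5 (n : ℕ) (F : ℕ → ℕ → ℕ → ℕ → ℕ → ℚ) : ℚ :=
  ∑ a ∈ Finset.range n, ∑ b ∈ Finset.range n, ∑ c ∈ Finset.range n, ∑ d ∈ Finset.range n,
    ∑ e ∈ Finset.range n, F a b c d e

theorem S5_12 (n : ℕ) (F : ℕ → ℕ → ℕ → ℕ → ℕ → ℚ) :
    S5 n F = S5 n (fun a b c d e => F b a c d e) := by
  unfold S5
  exact Finset.sum_comm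

theorem S5_23 (n : ℕ) (F : ℕ → ℕ → ℕ → ℕ → ℕ → ℚ) :
    S5 n F = S5 n (fun a b c d e => F a c b d e) := by
  unfold S5
  refine Finset.sum_congr rfl fun a _ => ?_
  exact Finset.sum_comm

theorem S5_34 (n : ℕ) (F : ℕ → ℕ → ℕ → ℕ → ℕ → ℚ) :
    S5 n F = S5 n (fun a b c d e => F a b d c e) := by
  unfold S5
  refine Finset.sum_congr rfl fun a _ => Finset.sum_congr rfl fun b _ => ?_
  exact Finset.sum_comm

theorem S5_45 (n : ℕ) (F : ℕ → ℕ → ℕ → ℕ → ℕ → ℚ) :
    S5 n F = S5 n (fun a b c d e => F a b c e d) := by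
  unfold S5
  refine Finset.sum_congr rfl fun a _ => Finset.sum_congr rfl fun b _ =>
    Finset.sum_congr rfl fun c _ => ?_
  exact Finset.sum_comm

theorem S5_congr {n : ℕ} {F G : ℕ → ℕ → ℕ → ℕ → ℕ → ℚ}
    (h : ∀ a b c d e, F a b c d e = G a b c d e) : S5 n F = S5 n G := by
  have : F = G := by funext a b c d e; exact h a b c d e
  rw [this]

theorem S5_add (n : ℕ) (F G : ℕ → ℕ → ℕ → ℕ → ℕ → ℚ) :
    S5 n F + S5 n G = S5 n (fun a b c d e => F a b c d e + G a b c d e) := by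
  unfold S5
  simp only [Finset.sum_add_distrib]

theorem S5_zero {n : ℕ} {F : ℕ → ℕ → ℕ → ℕ → ℕ → ℚ} (h : ∀ a b c d e, F a b c d e = 0) :
    S5 n F = 0 := by
  unfold S5
  simp [h]

/-- four-fold sums -/
def S4 (n : ℕ) (F : ℕ → ℕ → ℕ → ℕ → ℚ) : ℚ :=
  ∑ a ∈ Finset.range n, ∑ b ∈ Finset.range n, ∑ c ∈ Finset.range n, ∑ d ∈ Finset.range n, F a b c d

theorem S4_12 (n : ℕ) (F : ℕ → ℕ → ℕ → ℕ → ℚ) :
    S4 n F = S4 n (fun a b c d => F b a c d) := by
  unfold S4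
  exact Finset.sum_comm

theorem S4_23 (n : ℕ) (F : ℕ → ℕ → ℕ → ℕ → ℚ) :
    S4 n F = S4 n (fun a b c d => F a c b d) := by
  unfold S4
  refine Finset.sum_congr rfl fun a _ => ?_
  exact Finset.sum_comm

theorem S4_34 (n : ℕ) (F : ℕ → ℕ → ℕ → ℕ → ℚ) :
    S4 n F = S4 n (fun a b c d => F a b d c) := by
  unfold S4
  refine Finset.sum_congr rfl fun a _ => Finset.sum_congr rfl fun b _ => ?_
  exact Finset.sum_comm

theorem S4_congr {n : ℕ} {F G : ℕ → ℕ → ℕ → ℕ → ℚ}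
    (h : ∀ a b c d, F a b c d = G a b c d) : S4 n F = S4 n G := by
  have : F = G := by funext a b c d; exact h a b c d
  rw [this]

theorem S4_add (n : ℕ) (F G : ℕ → ℕ → ℕ → ℕ → ℚ) :
    S4 n F + S4 n G = S4 n (fun a b c d => F a b c d + G a b c d) := by
  unfold S4
  simp only [Finset.sum_add_distrib]

theorem S4_zero {n : ℕ} {F : ℕ → ℕ → ℕ → ℕ → ℚ} (h : ∀ a b c d, F a b c d = 0) :
    S4 n F = 0 := by
  unfold S4
  simp [h]

theorem t_Layer4 (hL : LieStr) (hE : Exp5) : Layer4 := by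
  intro ψ N hN hdm hlen hm
  have hr := hL ψ hdm.mem
  have hs : (-1 : ℚ) ^ (N + 1) = 1 := hN.add_one.neg_one_pow
  have E : ∀ z0 z1 z2 z3 z4 : ℚ, ev [z0, z1, z2, z3, z4] ψ = S5 (N + 1) (fun a b c d e =>
    co ψ (blk [a, b, c, d, e]) * (z0 ^ a * z1 ^ b * z2 ^ c * z3 ^ d * z4 ^ e)) := hE ψ N hlen
  have Gc : ∀ a b c d e, co ψ (blk [b, c, d, e, a]) = co ψ (blk [a, b, c, d, e]) :=
    fun a b c d e => blk_rot hdm hlen hm (by norm_num) 1 [a, b, c, d, e] rfl
  have Gr : ∀ a b c d e, co ψ (blk [e, d, c, b, a]) = co ψ (blk [a, b, c, d, e]) := by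
    intro a b c d e
    have := blk_rev hdm hlen [a, b, c, d, e]
    rw [hs, one_mul] at this
    exact this
  have Gi : ∀ a b c d e, co ψ (blk [a, b, c, d, e]) + co ψ (blk [a, c, b, d, e]) +
      co ψ (blk [a, c, d, b, e]) + co ψ (blk [a, c, d, e, b]) = 0 := by
    intro a b c d e
    have : co ψ (blk [a, b, c, d, e]) + (co ψ (blk [a, c, b, d, e]) +
      (co ψ (blk [a, c, d, b, e]) + co ψ (blk [a, c, d, e, b]))) = 0 :=
      blk_one hdm hlen hm (by norm_num) a b [c, d, e] rfl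
    linarith
  refine ⟨?_, ?_, ?_, hr.tr5, hr.sh4⟩
  · intro a b c d e
    simp only [E]
    rw [S5_45, S5_34, S5_23, S5_12]
    refine S5_congr fun i j k l m => ?_
    rw [Gc i j k l m]
    ring
  · intro a b c d e
    simp only [E]
    rw [S5_45, S5_34, S5_23, S5_12, S5_45, S5_34, S5_23, S5_45, S5_34, S5_45]
    refine S5_congr fun i j k l m => ?_
    rw [Gr i j k l m]
    ring
  · intro a b c d e
    have e2 : ev [a, c, b, d, e] ψ = S5 (N + 1) (fun i j k l m =>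
        co ψ (blk [i, k, j, l, m]) * (a ^ i * b ^ j * c ^ k * d ^ l * e ^ m)) := by
      rw [E, S5_23]
      exact S5_congr fun i j k l m => by ring
    have e3 : ev [a, c, d, b, e] ψ = S5 (N + 1) (fun i j k l m =>
        co ψ (blk [i, k, l, j, m]) * (a ^ i * b ^ j * c ^ k * d ^ l * e ^ m)) := by
      rw [E, S5_34, S5_23]
      exact S5_congr fun i j k l m => by ring
    have e4 : ev [a, c, d, e, b] ψ = S5 (N + 1) (fun i j k l m =>
        co ψ (blk [i, k, l, m, j]) * (a ^ i * b ^ j * c ^ k * d ^ l * e ^ m)) := by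
      rw [E, S5_45, S5_34, S5_23]
      exact S5_congr fun i j k l m => by ring
    show ev [a, b, c, d, e] ψ + ev [a, c, b, d, e] ψ + ev [a, c, d, b, e] ψ +
      ev [a, c, d, e, b] ψ = 0
    rw [e2, e3, e4, E, S5_add, S5_add, S5_add]
    refine S5_zero fun i j k l m => ?_
    rw [← add_mul, ← add_mul, ← add_mul, Gi i j k l m, zero_mul]

theorem t_Layer3 (hL : LieStr) (hE : Exp4) : Layer3 := by
  intro ψ N hN hdm hlen hm
  have hr := hL ψ hdm.mem
  have hs : (-1 : ℚ) ^ (N + 1) = 1 := hN.add_one.neg_one_pow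
  have E : ∀ z0 z1 z2 z3 : ℚ, ev [z0, z1, z2, z3] ψ = S4 (N + 1) (fun a b c d =>
    co ψ (blk [a, b, c, d]) * (z0 ^ a * z1 ^ b * z2 ^ c * z3 ^ d)) := hE ψ N hlen
  have Gc : ∀ a b c d, co ψ (blk [b, c, d, a]) = co ψ (blk [a, b, c, d]) :=
    fun a b c d => blk_rot hdm hlen hm (by norm_num) 1 [a, b, c, d] rfl
  have Gr : ∀ a b c d, co ψ (blk [d, c, b, a]) = co ψ (blk [a, b, c, d]) := by
    intro a b c d
    have := blk_rev hdm hlen [a, b, c, d]
    rw [hs, one_mul] at this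
    exact this
  have Gi : ∀ a b c d, co ψ (blk [a, b, c, d]) + co ψ (blk [a, c, b, d]) +
      co ψ (blk [a, c, d, b]) = 0 := by
    intro a b c d
    have : co ψ (blk [a, b, c, d]) + (co ψ (blk [a, c, b, d]) +
      co ψ (blk [a, c, d, b])) = 0 :=
      blk_one hdm hlen hm (by norm_num) a b [c, d] rfl
    linarith
  refine ⟨?_, ?_, ?_, hr.tr4, hr.sh3⟩
  · intro a b c d
    simp only [E]
    rw [S4_34, S4_23, S4_12]
    refine S4_congr fun i j k l => ?_
    rw [Gc i j k l]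
    ring
  · intro a b c d
    simp only [E]
    rw [S4_34, S4_23, S4_12, S4_34, S4_23, S4_34]
    refine S4_congr fun i j k l => ?_
    rw [Gr i j k l]
    ring
  · intro a b c d
    have e2 : ev [a, c, b, d] ψ = S4 (N + 1) (fun i j k l =>
        co ψ (blk [i, k, j, l]) * (a ^ i * b ^ j * c ^ k * d ^ l)) := by
      rw [E, S4_23]
      exact S4_congr fun i j k l => by ring
    have e3 : ev [a, c, d, b] ψ = S4 (N + 1) (fun i j k l =>
        co ψ (blk [i, k, l, j]) * (a ^ i * b ^ j * c ^ k * d ^ l)) := by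
      rw [E, S4_34, S4_23]
      exact S4_congr fun i j k l => by ring
    show ev [a, b, c, d] ψ + ev [a, c, b, d] ψ + ev [a, c, d, b] ψ = 0
    rw [e2, e3, E, S4_add, S4_add]
    refine S4_zero fun i j k l => ?_
    rw [← add_mul, ← add_mul, Gi i j k l, zero_mul]

end Pool.Agent.K3h43.DSL
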