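import Pool.Agent.R241.DL7

/-! MP_ec2393_nt: the layers 3 and 4 of the filtration of `dm` by the number of letters `x₀`, odd
weights. Definitions and the statements of the bricks. -/

set_option autoImplicit false

namespace Pool.Agent.K3h43.DSL

open Pool.Agent.H777R4.DM Pool.Agent.R241.DL MvPolynomial

/-- `z₀^{a₀} ⋯ z_k^{a_k}` for the word `x₁^{a₀} x₀ x₁^{a₁} ⋯ x₀ x₁^{a_k}` and the list
`[z₀, …, z_k]`; it is `0` if the word does not have exactly `k` letters `x₀`. -/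
def evL : List ℚ → List (Fin 2) → ℚ
  | [], _ => 0
  | [_], [] => 1
  | _ :: _ :: _, [] => 0
  | z :: zs, i :: u => if i = 1 then z * evL (z :: zs) u else evL zs u

/-- The linear extension of `evL L`. -/
noncomputable def ev (L : List ℚ) : A →ₗ[ℚ] ℚ := lext (evL L)

/-- brick A1 -/
def EvMul : Prop := ∀ (L : List ℚ) (f g : A),
  ev L (f * g) = ∑ i ∈ Finset.range L.length, ev (L.take (i + 1)) f * ev (L.drop i) g

/-- The relations of Lie elements used here. -/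
structure LieRel (f : A) : Prop where
  lin : ∃ α : ℚ, ∀ z, ev [z] f = α * z
  tr2 : ∀ a b c : ℚ, ev [a + c, b + c] f = ev [a, b] f
  tr3 : ∀ z0 z1 z2 c : ℚ, ev [z0 + c, z1 + c, z2 + c] f = ev [z0, z1, z2] f
  tr4 : ∀ z0 z1 z2 z3 c : ℚ, ev [z0 + c, z1 + c, z2 + c, z3 + c] f = ev [z0, z1, z2, z3] f
  tr5 : ∀ z0 z1 z2 z3 z4 c : ℚ,
    ev [z0 + c, z1 + c, z2 + c, z3 + c, z4 + c] f = ev [z0, z1, z2, z3, z4] f
  sh2 : ∀ a b : ℚ, ev [a + b, b, 0] f + ev [a + b, a, 0] f = 0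
  sh3 : ∀ a b c : ℚ, ev [a + b + c, b + c, c, 0] f + ev [a + b + c, a + c, c, 0] f +
    ev [a + b + c, a + c, a, 0] f = 0
  sh4 : ∀ a b c d : ℚ, ev [a + b + c + d, b + c + d, c + d, d, 0] f +
    ev [a + b + c + d, a + c + d, c + d, d, 0] f + ev [a + b + c + d, a + c + d, a + d, d, 0] f +
    ev [a + b + c + d, a + c + d, a + d, a, 0] f = 0

/-- brick A2 -/
def LieStr : Prop := ∀ f ∈ LieX, LieRel f

/-- brick E4 -/
def Exp4 : Prop := ∀ (ψ : A) (N : ℕ), LenHom ψ N → ∀ z0 z1 z2 z3 : ℚ,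
  ev [z0, z1, z2, z3] ψ = ∑ a ∈ Finset.range (N + 1), ∑ b ∈ Finset.range (N + 1),
    ∑ c ∈ Finset.range (N + 1), ∑ d ∈ Finset.range (N + 1),
      co ψ (blk [a, b, c, d]) * (z0 ^ a * z1 ^ b * z2 ^ c * z3 ^ d)

/-- brick E5 -/
def Exp5 : Prop := ∀ (ψ : A) (N : ℕ), LenHom ψ N → ∀ z0 z1 z2 z3 z4 : ℚ,
  ev [z0, z1, z2, z3, z4] ψ = ∑ a ∈ Finset.range (N + 1), ∑ b ∈ Finset.range (N + 1),
    ∑ c ∈ Finset.range (N + 1), ∑ d ∈ Finset.range (N + 1), ∑ e ∈ Finset.range (N + 1),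
      co ψ (blk [a, b, c, d, e]) * (z0 ^ a * z1 ^ b * z2 ^ c * z3 ^ d * z4 ^ e)

/-- The relations of the layer 3 (`N` odd), `P z0 z1 z2 z3 = ev [z0, z1, z2, z3] ψ`. -/
structure Rel3 (P : ℚ → ℚ → ℚ → ℚ → ℚ) : Prop where
  cyc : ∀ a b c d, P b c d a = P a b c d
  rev : ∀ a b c d, P d c b a = P a b c d
  ins : ∀ a b c d, P a b c d + P a c b d + P a c d b = 0
  tr : ∀ a b c d t, P (a + t) (b + t) (c + t) (d + t) = P a b c d
  shu : ∀ a b c, P (a + b + c) (b + c) c 0 + P (a + b + c) (a + c) c 0 +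
    P (a + b + c) (a + c) a 0 = 0

/-- The relations of the layer 4 (`N` odd), `P z0 z1 z2 z3 z4 = ev [z0, z1, z2, z3, z4] ψ`. -/
structure Rel4 (P : ℚ → ℚ → ℚ → ℚ → ℚ → ℚ) : Prop where
  cyc : ∀ a b c d e, P b c d e a = P a b c d e
  rev : ∀ a b c d e, P e d c b a = P a b c d e
  ins : ∀ a b c d e, P a b c d e + P a c b d e + P a c d b e + P a c d e b = 0
  tr : ∀ a b c d e t, P (a + t) (b + t) (c + t) (d + t) (e + t) = P a b c d e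
  shu : ∀ a b c d, P (a + b + c + d) (b + c + d) (c + d) d 0 +
    P (a + b + c + d) (a + c + d) (c + d) d 0 + P (a + b + c + d) (a + c + d) (a + d) d 0 +
    P (a + b + c + d) (a + c + d) (a + d) a 0 = 0

/-- brick P3 -/
def Layer3 : Prop := ∀ (ψ : A) (N : ℕ), Odd N → IsDM ψ → LenHom ψ N →
  (∀ u, co ψ u ≠ 0 → 3 ≤ u.count 0) → Rel3 (fun a b c d => ev [a, b, c, d] ψ)

/-- brick P4 -/
def Layer4 : Prop := ∀ (ψ : A) (N : ℕ), Odd N → IsDM ψ → LenHom ψ N →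
  (∀ u, co ψ u ≠ 0 → 4 ≤ u.count 0) → Rel4 (fun a b c d e => ev [a, b, c, d, e] ψ)

/-- brick B: a function with the relations `Rel4` that is polynomial in the first variable
vanishes -/
def Van4 : Prop := ∀ P : ℚ → ℚ → ℚ → ℚ → ℚ → ℚ, Rel4 P →
  (∀ b c d e, ∃ p : Polynomial ℚ, ∀ a, P a b c d e = p.eval a) → ∀ a b c d e, P a b c d e = 0

/-- brick B': no layer 4 -/
def Zero4 : Prop := ∀ (ψ : A) (N : ℕ), Odd N → IsDM ψ → LenHom ψ N →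
  (∀ u, co ψ u ≠ 0 → 4 ≤ u.count 0) → ∀ u, co ψ u ≠ 0 → 5 ≤ u.count 0

/-- `ℚ[v₀, v₁, v₂]` -/
abbrev R : Type := MvPolynomial (Fin 3) ℚ

/-- substitution -/
noncomputable def sb (a b c : R) : R →ₐ[ℚ] R := aeval ![a, b, c]

/-- The space of the third layer in degree `d`. -/
def V (d : ℕ) : Submodule ℚ R where
  carrier := {q | q.IsHomogeneous d ∧ sb (X 1) (X 2) (-(X 0 + X 1 + X 2)) q = q ∧
    sb (-X 2) (-X 1) (-X 0) q = q ∧
    q + sb (X 0 + X 1) (-X 1) (X 1 + X 2) q + sb (X 0 + X 1) (X 2) (-(X 1 + X 2)) q = 0 ∧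
    q + sb (X 1) (X 0) (X 2) q + sb (X 1) (X 2) (X 0) q = 0}
  add_mem' := by
    rintro p q ⟨h1, h2, h3, h4, h5⟩ ⟨k1, k2, k3, k4, k5⟩
    refine ⟨h1.add k1, by rw [map_add, h2, k2], by rw [map_add, h3, k3], ?_, ?_⟩
    · rw [map_add, map_add]; linear_combination h4 + k4
    · rw [map_add, map_add]; linear_combination h5 + k5
  zero_mem' := ⟨isHomogeneous_zero _ _ _, by simp, by simp, by simp, by simp⟩
  smul_mem' := by
    rintro c p ⟨h1, h2, h3, h4, h5⟩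
    refine ⟨?_, by rw [map_smul, h2], by rw [map_smul, h3], ?_, ?_⟩
    · exact (homogeneousSubmodule (Fin 3) ℚ d).smul_mem c h1
    · rw [map_smul, map_smul, ← smul_add, ← smul_add, h4, smul_zero]
    · rw [map_smul, map_smul, ← smul_add, ← smul_add, h5, smul_zero]

/-- brick C: the dimension of the third layer -/
def DimV : Prop := ∀ d : ℕ, Even d →
  Module.Finite ℚ (V d) ∧ Module.finrank ℚ (V d) ≤ (d ^ 2 - 1) / 48

/-- brick Q: the map to `V` -/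
def MapV : Prop := ∀ N : ℕ, Odd N → 3 ≤ N → ∃ F : A →ₗ[ℚ] R, ∀ ψ : A, IsDM ψ → LenHom ψ N →
  (∀ u, co ψ u ≠ 0 → 3 ≤ u.count 0) →
  F ψ ∈ V (N - 3) ∧ (F ψ = 0 → ∀ u, co ψ u ≠ 0 → 4 ≤ u.count 0)

/-! ### the bricks for `DimV` -/

/-- the coordinates `s = v₀ + v₂`, `p = v₀ + v₁`, `q = v₁ + v₂` (named `X 0, X 1, X 2`) -/
noncomputable def ku : R →ₐ[ℚ] R :=
  sb (C (1 / 2) * (X 0 + X 1 - X 2)) (C (1 / 2) * (X 1 + X 2 - X 0))
    (C (1 / 2) * (X 0 + X 2 - X 1))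

/-- the coordinates `s`, `p + q`, `p - q` (named `X 0, X 1, X 2`) -/
noncomputable def kt : R →ₐ[ℚ] R :=
  sb (C (1 / 2) * (X 0 + X 2)) (C (1 / 2) * (X 1 - X 0)) (C (1 / 2) * (X 0 - X 2))

/-- signed permutations of the variables -/
noncomputable def sg (σ : Equiv.Perm (Fin 3)) (ε : Fin 3 → ℚ) : R →ₐ[ℚ] R :=
  aeval (fun i => C (ε i) * X (σ i))

/-- the sum of the coefficients of the monomials with exponents `2 l (π i)` -/
noncomputable def cl (l : Fin 3 → ℕ) : R →ₗ[ℚ] ℚ :=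
  ∑ π : Equiv.Perm (Fin 3), lcoeff ℚ (Finsupp.equivFunOnFinite.symm fun i => 2 * l (π i))

/-- brick C2 -/
def ClSg : Prop := ∀ (l : Fin 3 → ℕ) (σ : Equiv.Perm (Fin 3)) (ε : Fin 3 → ℚ),
  (∀ i, ε i ^ 2 = 1) → ∀ Q : R, cl l (sg σ ε Q) = cl l Q

/-- brick C1: the λ-lemma -/
def Lam : Prop := ∀ (d : ℕ) (μ : R →ₗ[ℚ] ℚ), 1 ≤ d →
  (∀ Q : R, Q.IsHomogeneous d → μ (sb (X 0 + X 1) (X 1) (X 2) Q) = μ Q) →
  (∀ Q : R, Q.IsHomogeneous d → μ (sb (X 1) (X 0) (X 2) Q) = μ Q) →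
  (∀ Q : R, Q.IsHomogeneous d → μ (sb (X 0) (X 2) (X 1) Q) = μ Q) →
  ∀ Q : R, Q.IsHomogeneous d → μ Q = 0

/-- the dihedral invariants -/
def D (d : ℕ) : Submodule ℚ R where
  carrier := {q | q.IsHomogeneous d ∧ sb (X 1) (X 2) (-(X 0 + X 1 + X 2)) q = q ∧
    sb (-X 2) (-X 1) (-X 0) q = q}
  add_mem' := by
    rintro p q ⟨h1, h2, h3⟩ ⟨k1, k2, k3⟩
    exact ⟨h1.add k1, by rw [map_add, h2, k2], by rw [map_add, h3, k3]⟩
  zero_mem' := ⟨isHomogeneous_zero _ _ _, by simp, by simp⟩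
  smul_mem' := by
    rintro c p ⟨h1, h2, h3⟩
    exact ⟨(homogeneousSubmodule (Fin 3) ℚ d).smul_mem c h1, by rw [map_smul, h2],
      by rw [map_smul, h3]⟩

/-- the pairs `(b, c)` with `c ≤ b` and `b + c ≤ e` -/
def De (e : ℕ) : Finset (ℕ × ℕ) :=
  (Finset.range (e + 1) ×ˢ Finset.range (e + 1)).filter fun x => x.2 ≤ x.1 ∧ x.1 + x.2 ≤ e

/-- the pairs `(b, c)` with `c ≤ b` and `2 b + c ≤ e` -/
def Le (e : ℕ) : Finset (ℕ × ℕ) :=
  (Finset.range (e + 1) ×ˢ Finset.range (e + 1)).filter fun x => x.2 ≤ x.1 ∧ 2 * x.1 + x.2 ≤ e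

/-- brick C3 -/
def DimD : Prop := ∀ e : ℕ, Module.Finite ℚ (D (2 * e)) ∧
  Module.finrank ℚ (D (2 * e)) ≤ (De e).card

/-- brick C4 -/
def Arith : Prop := ∀ e : ℕ, 1 ≤ e →
  (De e).card ≤ ((2 * e) ^ 2 - 1) / 48 + 2 * (Le e).card

/-- the exponents of a pair -/
def ex (e : ℕ) (x : ℕ × ℕ) : Fin 3 → ℕ := ![e - x.1 - x.2, x.1, x.2]

/-- brick C6: the functionals are independent on the dihedral invariants -/
def Surj : Prop := ∀ e : ℕ, 1 ≤ e → ∀ α β : Le e → ℚ,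
  (∀ Q ∈ D (2 * e), ∑ x : Le e, α x * cl (ex e x) (kt Q) + ∑ x : Le e, β x * cl (ex e x) (ku Q) = 0) →
  (∀ x, α x = 0) ∧ ∀ x, β x = 0

/-- brick C7 -/
def VKer : Prop := ∀ (d : ℕ) (l : Fin 3 → ℕ), ∀ Q ∈ V d, cl l (kt Q) = 0 ∧ cl l (ku Q) = 0

end Pool.Agent.K3h43.DSL
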