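import Pool.Agent.K3h43.DSL.Stm

set_option autoImplicit false

namespace Pool.Agent.K3h43.DSL

open MvPolynomial

theorem sb_hom {a b c q : R} {d : ℕ} (ha : a.IsHomogeneous 1) (hb : b.IsHomogeneous 1)
    (hc : c.IsHomogeneous 1) (hq : q.IsHomogeneous d) : (sb a b c q).IsHomogeneous d := by
  have := hq.aeval ![a, b, c] (n := 1) (by intro i; fin_cases i <;> simp [ha, hb, hc])
  rwa [one_mul] at this

theorem alg3 {f g : R →ₐ[ℚ] R} (h0 : f (X 0) = g (X 0)) (h1 : f (X 1) = g (X 1))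
    (h2 : f (X 2) = g (X 2)) (Q : R) : f Q = g Q := by
  have : f = g := by
    apply algHom_ext
    intro i
    fin_cases i
    · exact h0
    · exact h1
    · exact h2
  rw [this]

theorem sb0 (a b c : R) : sb a b c (X 0) = a := by simp [sb]
theorem sb1 (a b c : R) : sb a b c (X 1) = b := by simp [sb]
theorem sb2 (a b c : R) : sb a b c (X 2) = c := by simp [sb]

theorem sb_comp {a b c a' b' c' a'' b'' c'' : R} (h0 : sb a b c a' = a'') (h1 : sb a b c b' = b'')
    (h2 : sb a b c c' = c'') (Q : R) : sb a b c (sb a' b' c' Q) = sb a'' b'' c'' Q := by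
  have := alg3 (f := (sb a b c).comp (sb a' b' c')) (g := sb a'' b'' c'')
    (by simp [sb0, h0]) (by simp [sb1, h1]) (by simp [sb2, h2]) Q
  simpa using this

/-- the cyclic substitution -/
noncomputable def cy : R →ₐ[ℚ] R := sb (X 1) (X 2) (-(X 0 + X 1 + X 2))
/-- the reversal -/
noncomputable def rv : R →ₐ[ℚ] R := sb (-X 2) (-X 1) (-X 0)
noncomputable def t1 : R →ₐ[ℚ] R := sb (X 0 + X 1) (-X 1) (X 1 + X 2)
noncomputable def w0 : R →ₐ[ℚ] R := sb (-(X 0 + X 1 + X 2)) (X 1) (X 2)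

theorem cy4 (Q : R) : cy (cy (cy (cy Q))) = Q := by
  have := alg3 (f := cy.comp (cy.comp (cy.comp cy))) (g := AlgHom.id ℚ R)
    (by simp [cy, sb0, sb1, sb2]) (by simp [cy, sb0, sb1, sb2])
    (by simp [cy, sb0, sb1, sb2]) Q
  simpa using this

theorem rv2 (Q : R) : rv (rv Q) = Q := by
  have := alg3 (f := rv.comp rv) (g := AlgHom.id ℚ R)
    (by simp [rv, sb0, sb1, sb2]) (by simp [rv, sb0, sb1, sb2])
    (by simp [rv, sb0, sb1, sb2]) Q
  simpa using this

theorem rvcy (Q : R) : rv (cy Q) = cy (cy (cy (rv Q))) := by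
  have := alg3 (f := rv.comp cy) (g := cy.comp (cy.comp (cy.comp rv)))
    (by simp [cy, rv, sb0, sb1, sb2]) (by simp [cy, rv, sb0, sb1, sb2])
    (by simp [cy, rv, sb0, sb1, sb2]; ring) Q
  simpa using this

theorem trans_eq (Q : R) : sb (X 0 + X 1) (X 1) (X 2) Q = t1 (w0 (t1 (w0 Q))) := by
  have := alg3 (f := sb (X 0 + X 1) (X 1) (X 2)) (g := t1.comp (w0.comp (t1.comp w0)))
    (by simp [t1, w0, sb0, sb1, sb2]; ring) (by simp [t1, w0, sb0, sb1, sb2])
    (by simp [t1, w0, sb0, sb1, sb2]) Q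
  simpa using this

/-- the dihedral sum -/
noncomputable def av (Q : R) : R :=
  (Q + rv Q) + cy (Q + rv Q) + cy (cy (Q + rv Q)) + cy (cy (cy (Q + rv Q)))

theorem av_mem {Q : R} {d : ℕ} (hQ : Q.IsHomogeneous d) : av Q ∈ D d := by
  have X0 : (X 0 : R).IsHomogeneous 1 := isHomogeneous_X _ _
  have X1 : (X 1 : R).IsHomogeneous 1 := isHomogeneous_X _ _
  have X2 : (X 2 : R).IsHomogeneous 1 := isHomogeneous_X _ _
  have hc : ∀ {Q : R}, Q.IsHomogeneous d → (cy Q).IsHomogeneous d := fun h =>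
    sb_hom X1 X2 (((X0.add X1).add X2).neg) h
  have hr : ∀ {Q : R}, Q.IsHomogeneous d → (rv Q).IsHomogeneous d := fun h =>
    sb_hom X2.neg X1.neg X0.neg h
  have hT := hQ.add (hr hQ)
  refine ⟨((hT.add (hc hT)).add (hc (hc hT))).add (hc (hc (hc hT))), ?_, ?_⟩
  · show cy (av Q) = av Q
    unfold av
    simp only [map_add, cy4]
    ring
  · show rv (av Q) = av Q
    unfold av
    simp only [map_add, rv2, rvcy, cy4]
    ring

theorem sgX (σ : Equiv.Perm (Fin 3)) (ε : Fin 3 → ℚ) (i : Fin 3) :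
    sg σ ε (X i) = C (ε i) * X (σ i) := by
  simp [sg]

theorem kt0 : kt (X 0) = C (1 / 2) * (X 0 + X 2) := by simp [kt, sb]
theorem kt1 : kt (X 1) = C (1 / 2) * (X 1 - X 0) := by simp [kt, sb]
theorem kt2 : kt (X 2) = C (1 / 2) * (X 0 - X 2) := by simp [kt, sb]
theorem ku0 : ku (X 0) = C (1 / 2) * (X 0 + X 1 - X 2) := by simp [ku, sb]
theorem ku1 : ku (X 1) = C (1 / 2) * (X 1 + X 2 - X 0) := by simp [ku, sb]
theorem ku2 : ku (X 2) = C (1 / 2) * (X 0 + X 2 - X 1) := by simp [ku, sb]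

theorem half : (C (1 / 2) + C (1 / 2) : R) = 1 := by
  rw [← C_add]
  norm_num

section
variable (hS : ClSg) (l : Fin 3 → ℕ)
include hS

theorem inv_of {k g : R →ₐ[ℚ] R} (σ : Equiv.Perm (Fin 3)) (ε : Fin 3 → ℚ) (hε : ∀ i, ε i ^ 2 = 1)
    (h0 : k (g (X 0)) = sg σ ε (k (X 0))) (h1 : k (g (X 1)) = sg σ ε (k (X 1)))
    (h2 : k (g (X 2)) = sg σ ε (k (X 2))) (Q : R) : cl l (k (g Q)) = cl l (k Q) := by
  have := alg3 (f := k.comp g) (g := (sg σ ε).comp k) (by simpa using h0) (by simpa using h1)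
    (by simpa using h2) Q
  simp only [AlgHom.comp_apply] at this
  rw [this, hS l σ ε hε]

theorem kt_cy (Q : R) : cl l (kt (cy Q)) = cl l (kt Q) := by
  have e0 : (Equiv.swap (1 : Fin 3) 2) 0 = 0 := by decide
  have e1 : (Equiv.swap (1 : Fin 3) 2) 1 = 2 := by decide
  have e2 : (Equiv.swap (1 : Fin 3) 2) 2 = 1 := by decide
  refine inv_of hS l (Equiv.swap 1 2) ![-1, -1, 1] (by intro i; fin_cases i <;> norm_num) ?_ ?_ ?_ Q
  · simp only [cy, sb0, kt1, kt0, map_mul, map_add, sgX, e0, e2, algHom_C]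
    simp
    ring
  · simp only [cy, sb1, kt1, kt2, map_mul, map_sub, sgX, e0, e1, algHom_C]
    simp
    ring
  · simp only [cy, sb2, kt0, kt1, kt2, map_mul, map_sub, map_add, map_neg, sgX, e0, e2, algHom_C]
    simp
    ring

theorem ku_cy (Q : R) : cl l (ku (cy Q)) = cl l (ku Q) := by
  have e0 : (Equiv.swap (1 : Fin 3) 2) 0 = 0 := by decide
  have e1 : (Equiv.swap (1 : Fin 3) 2) 1 = 2 := by decide
  have e2 : (Equiv.swap (1 : Fin 3) 2) 2 = 1 := by decide
  refine inv_of hS l (Equiv.swap 1 2) ![-1, 1, -1] (by intro i; fin_cases i <;> norm_num) ?_ ?_ ?_ Q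
  · simp only [cy, sb0, ku1, ku0, map_mul, map_add, map_sub, sgX, e0, e1, e2, algHom_C]
    simp
    ring
  · simp only [cy, sb1, ku1, ku2, map_mul, map_add, map_sub, sgX, e0, e1, e2, algHom_C]
    simp
    ring
  · simp only [cy, sb2, ku0, ku1, ku2, map_mul, map_sub, map_add, map_neg, sgX, e0, e1, e2, algHom_C]
    simp
    ring

theorem kt_rv (Q : R) : cl l (kt (rv Q)) = cl l (kt Q) := by
  refine inv_of hS l 1 ![-1, -1, 1] (by intro i; fin_cases i <;> norm_num) ?_ ?_ ?_ Q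
  · simp only [rv, sb0, kt2, kt0, map_mul, map_add, map_neg, sgX, algHom_C]
    simp
    ring
  · simp only [rv, sb1, kt1, map_mul, map_sub, map_neg, sgX, algHom_C]
    simp
    ring
  · simp only [rv, sb2, kt0, kt2, map_mul, map_sub, map_add, map_neg, sgX, algHom_C]
    simp
    ring

theorem ku_rv (Q : R) : cl l (ku (rv Q)) = cl l (ku Q) := by
  have e0 : (Equiv.swap (1 : Fin 3) 2) 0 = 0 := by decide
  have e1 : (Equiv.swap (1 : Fin 3) 2) 1 = 2 := by decide
  have e2 : (Equiv.swap (1 : Fin 3) 2) 2 = 1 := by decide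
  refine inv_of hS l (Equiv.swap 1 2) ![-1, -1, -1] (by intro i; fin_cases i <;> norm_num) ?_ ?_ ?_ Q
  · simp only [rv, sb0, ku2, ku0, map_mul, map_add, map_sub, map_neg, sgX, e0, e1, e2, algHom_C]
    simp
    ring
  · simp only [rv, sb1, ku1, map_mul, map_add, map_sub, map_neg, sgX, e0, e1, e2, algHom_C]
    simp
    ring
  · simp only [rv, sb2, ku0, ku2, map_mul, map_sub, map_add, map_neg, sgX, e0, e1, e2, algHom_C]
    simp
    ring

theorem kt_t1 (Q : R) : cl l (kt (t1 Q)) = cl l (kt Q) := by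
  have e0 : (Equiv.swap (0 : Fin 3) 1) 0 = 1 := by decide
  have e1 : (Equiv.swap (0 : Fin 3) 1) 1 = 0 := by decide
  have e2 : (Equiv.swap (0 : Fin 3) 1) 2 = 2 := by decide
  refine inv_of hS l (Equiv.swap 0 1) ![1, 1, 1] (by intro i; fin_cases i <;> norm_num) ?_ ?_ ?_ Q
  · simp only [t1, sb0, kt0, kt1, map_mul, map_add, sgX, e0, e1, e2, algHom_C]
    simp
    ring
  · simp only [t1, sb1, kt1, map_mul, map_sub, map_neg, sgX, e0, e1, e2, algHom_C]
    simp
    ring
  · simp only [t1, sb2, kt1, kt2, map_mul, map_sub, map_add, sgX, e0, e1, e2, algHom_C]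
    simp
    ring

theorem ku_w0 (Q : R) : cl l (ku (w0 Q)) = cl l (ku Q) := by
  have e0 : (Equiv.swap (0 : Fin 3) 1) 0 = 1 := by decide
  have e1 : (Equiv.swap (0 : Fin 3) 1) 1 = 0 := by decide
  have e2 : (Equiv.swap (0 : Fin 3) 1) 2 = 2 := by decide
  refine inv_of hS l (Equiv.swap 0 1) ![-1, -1, 1] (by intro i; fin_cases i <;> norm_num) ?_ ?_ ?_ Q
  · simp only [w0, sb0, ku0, ku1, ku2, map_mul, map_add, map_sub, map_neg, sgX, e0, e1, e2, algHom_C]
    simp
    ring
  · simp only [w0, sb1, ku1, map_mul, map_add, map_sub, map_neg, sgX, e0, e1, e2, algHom_C]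
    simp
    ring
  · simp only [w0, sb2, ku2, map_mul, map_sub, map_add, sgX, e0, e1, e2, algHom_C]
    simp
    ring

theorem ku_s01 (Q : R) : cl l (ku (sb (X 1) (X 0) (X 2) Q)) = cl l (ku Q) := by
  have e0 : (Equiv.swap (0 : Fin 3) 2) 0 = 2 := by decide
  have e1 : (Equiv.swap (0 : Fin 3) 2) 1 = 1 := by decide
  have e2 : (Equiv.swap (0 : Fin 3) 2) 2 = 0 := by decide
  refine inv_of hS l (Equiv.swap 0 2) ![1, 1, 1] (by intro i; fin_cases i <;> norm_num) ?_ ?_ ?_ Q
  · simp only [sb0, ku0, ku1, map_mul, map_add, map_sub, sgX, e0, e1, e2, algHom_C]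
    simp
    ring
  · simp only [sb1, ku0, ku1, map_mul, map_add, map_sub, sgX, e0, e1, e2, algHom_C]
    simp
    ring
  · simp only [sb2, ku2, map_mul, map_sub, map_add, sgX, e0, e1, e2, algHom_C]
    simp
    ring

theorem ku_s12 (Q : R) : cl l (ku (sb (X 0) (X 2) (X 1) Q)) = cl l (ku Q) := by
  have e0 : (Equiv.swap (0 : Fin 3) 1) 0 = 1 := by decide
  have e1 : (Equiv.swap (0 : Fin 3) 1) 1 = 0 := by decide
  have e2 : (Equiv.swap (0 : Fin 3) 1) 2 = 2 := by decide
  refine inv_of hS l (Equiv.swap 0 1) ![1, 1, 1] (by intro i; fin_cases i <;> norm_num) ?_ ?_ ?_ Q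
  · simp only [sb0, ku0, map_mul, map_add, map_sub, sgX, e0, e1, e2, algHom_C]
    simp
    ring
  · simp only [sb1, ku1, ku2, map_mul, map_add, map_sub, sgX, e0, e1, e2, algHom_C]
    simp
  · simp only [sb2, ku1, ku2, map_mul, map_sub, map_add, sgX, e0, e1, e2, algHom_C]
    simp


theorem kt_av (Q : R) : cl l (kt (av Q)) = 8 * cl l (kt Q) := by
  unfold av
  simp only [map_add, kt_cy hS, kt_rv hS]
  ring

theorem ku_av (Q : R) : cl l (ku (av Q)) = 8 * cl l (ku Q) := by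
  unfold av
  simp only [map_add, ku_cy hS, ku_rv hS]
  ring

end

/-- the inverse of `ku` -/
noncomputable def ku' : R →ₐ[ℚ] R := sb (X 0 + X 2) (X 0 + X 1) (X 1 + X 2)
/-- the inverse of `kt` -/
noncomputable def kt' : R →ₐ[ℚ] R := sb (X 0 + X 2) (X 0 + X 1 + (X 1 + X 2)) (X 0 - X 2)

theorem ku_ku' (Q : R) : ku (ku' Q) = Q := by
  have h := half
  have := alg3 (f := ku.comp ku') (g := AlgHom.id ℚ R)
    (by
      simp only [AlgHom.comp_apply, ku', sb0, map_add, ku0, ku2, AlgHom.id_apply]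
      linear_combination (X 0 : R) * h)
    (by
      simp only [AlgHom.comp_apply, ku', sb1, map_add, ku0, ku1, AlgHom.id_apply]
      linear_combination (X 1 : R) * h)
    (by
      simp only [AlgHom.comp_apply, ku', sb2, map_add, ku1, ku2, AlgHom.id_apply]
      linear_combination (X 2 : R) * h) Q
  simpa using this

theorem kt_kt' (Q : R) : kt (kt' Q) = Q := by
  have h := half
  have := alg3 (f := kt.comp kt') (g := AlgHom.id ℚ R)
    (by
      simp only [AlgHom.comp_apply, kt', sb0, map_add, kt0, kt2, AlgHom.id_apply]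
      linear_combination (X 0 : R) * h)
    (by
      simp only [AlgHom.comp_apply, kt', sb1, map_add, kt0, kt1, kt2, AlgHom.id_apply]
      linear_combination (X 1 : R) * h)
    (by
      simp only [AlgHom.comp_apply, kt', sb2, map_sub, kt0, kt2, AlgHom.id_apply]
      linear_combination (X 2 : R) * h) Q
  simpa using this

/-- the monomial with exponents `2 l` -/
noncomputable def mo (l : Fin 3 → ℕ) : R :=
  monomial (Finsupp.equivFunOnFinite.symm fun i => 2 * l i) 1

theorem mo_hom (l : Fin 3 → ℕ) (e : ℕ) (h : l 0 + l 1 + l 2 = e) : (mo l).IsHomogeneous (2 * e) := by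
  apply isHomogeneous_monomial
  rw [Finsupp.degree_eq_sum]
  simp [Fin.sum_univ_three]
  omega

theorem cl_mo (l m : Fin 3 → ℕ) : cl l (mo m) =
    ((Finset.univ.filter fun π : Equiv.Perm (Fin 3) => ∀ i, m i = l (π i)).card : ℚ) := by
  unfold cl mo
  rw [LinearMap.sum_apply, Finset.card_filter]
  push_cast
  refine Finset.sum_congr rfl fun π _ => ?_
  rw [lcoeff_apply, coeff_monomial]
  congr 1
  rw [eq_iff_iff, Equiv.apply_eq_iff_eq, funext_iff]
  constructor
  · intro h i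
    have := h i
    omega
  · intro h i
    rw [h i]

theorem cl_mo_pos (l : Fin 3 → ℕ) : 0 < cl l (mo l) := by
  rw [cl_mo, Nat.cast_pos, Finset.card_pos]
  exact ⟨1, by simp⟩

theorem sorted_eq (l m : Fin 3 → ℕ) (h1 : l 1 ≤ l 0) (h2 : l 2 ≤ l 1) (k1 : m 1 ≤ m 0)
    (k2 : m 2 ≤ m 1) (hs : l 0 + l 1 + l 2 = m 0 + m 1 + m 2) (π : Equiv.Perm (Fin 3))
    (h : ∀ i, m i = l (π i)) : ∀ i, l i = m i := by
  have hl : ∀ i, l 2 ≤ l i ∧ l i ≤ l 0 := by
    intro i; fin_cases i <;> constructor <;> simp <;> omega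
  have hm : ∀ i, m 2 ≤ m i ∧ m i ≤ m 0 := by
    intro i; fin_cases i <;> constructor <;> simp <;> omega
  have a0 : l 0 = m (π.symm 0) := by rw [h]; simp
  have a2 : l 2 = m (π.symm 2) := by rw [h]; simp
  have b0 := h 0
  have b2 := h 2
  have c1 := (hl (π 0)).2
  have c2 := (hl (π 2)).1
  have c3 := (hm (π.symm 0)).2
  have c4 := (hm (π.symm 2)).1
  have e0 : l 0 = m 0 := by omega
  have e2 : l 2 = m 2 := by omega
  have e1 : l 1 = m 1 := by omega
  intro i
  fin_cases i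
  · exact e0
  · exact e1
  · exact e2

theorem ex_inj (e : ℕ) (x y : Le e) (π : Equiv.Perm (Fin 3))
    (h : ∀ i, ex e y i = ex e x (π i)) : x = y := by
  obtain ⟨⟨b, c⟩, hx⟩ := x
  obtain ⟨⟨b', c'⟩, hy⟩ := y
  simp only [Le, Finset.mem_filter, Finset.mem_product, Finset.mem_range] at hx hy
  have := sorted_eq (ex e (b, c)) (ex e (b', c')) (by simp [ex]; omega) (by simp [ex]; omega)
    (by simp [ex]; omega) (by simp [ex]; omega) (by simp [ex]; omega) π h
  have h1 := this 1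
  have h2 := this 2
  simp only [ex, Matrix.cons_val_one, Matrix.cons_val_zero, Matrix.cons_val_two,
    Matrix.tail_cons, Matrix.head_cons] at h1 h2
  simp only [Subtype.mk.injEq, Prod.mk.injEq]
  constructor
  · simpa using h1
  · simpa using h2

theorem cl_ex (e : ℕ) (x y : Le e) (hxy : x ≠ y) : cl (ex e x) (mo (ex e y)) = 0 := by
  rw [cl_mo]
  rw [Nat.cast_eq_zero, Finset.card_eq_zero, Finset.filter_eq_empty_iff]
  intro π _ h
  exact hxy (ex_inj e x y π h)

theorem t_Surj (hS : ClSg) (hL : Lam) : Surj := by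
  intro e he α β h
  -- the two functionals
  let μt : R →ₗ[ℚ] ℚ := ∑ x : Le e, α x • (cl (ex e x) ∘ₗ kt.toLinearMap)
  let μu : R →ₗ[ℚ] ℚ := ∑ x : Le e, β x • (cl (ex e x) ∘ₗ ku.toLinearMap)
  have at_ : ∀ Q, μt Q = ∑ x : Le e, α x * cl (ex e x) (kt Q) := by
    intro Q
    simp [μt]
  have au_ : ∀ Q, μu Q = ∑ x : Le e, β x * cl (ex e x) (ku Q) := by
    intro Q
    simp [μu]
  have key : ∀ Q : R, Q.IsHomogeneous (2 * e) → μt Q + μu Q = 0 := by
    intro Q hQ
    have h1 := h (av Q) (av_mem hQ)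
    simp only [kt_av hS, ku_av hS] at h1
    rw [at_, au_]
    have h2 : (8 : ℚ) * (∑ x : Le e, α x * cl (ex e x) (kt Q) + ∑ x : Le e, β x * cl (ex e x) (ku Q))
        = 0 := by
      rw [← h1, mul_add, Finset.mul_sum, Finset.mul_sum]
      congr 1 <;> refine Finset.sum_congr rfl fun x _ => by ring
    linarith
  have X0 : (X 0 : R).IsHomogeneous 1 := isHomogeneous_X _ _
  have X1 : (X 1 : R).IsHomogeneous 1 := isHomogeneous_X _ _
  have X2 : (X 2 : R).IsHomogeneous 1 := isHomogeneous_X _ _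
  have h1 : ∀ {Q : R}, Q.IsHomogeneous (2 * e) → (t1 Q).IsHomogeneous (2 * e) := fun h =>
    sb_hom (X0.add X1) X1.neg (X1.add X2) h
  have h2 : ∀ {Q : R}, Q.IsHomogeneous (2 * e) → (w0 Q).IsHomogeneous (2 * e) := fun h =>
    sb_hom ((X0.add X1).add X2).neg X1 X2 h
  have i1 : ∀ Q : R, Q.IsHomogeneous (2 * e) → μu (t1 Q) = μu Q := by
    intro Q hQ
    have k1 := key Q hQ
    have k2 := key (t1 Q) (h1 hQ)
    have k3 : μt (t1 Q) = μt Q := by
      rw [at_, at_]
      refine Finset.sum_congr rfl fun x _ => by rw [kt_t1 hS]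
    linarith
  have i2 : ∀ Q : R, μu (w0 Q) = μu Q := by
    intro Q
    rw [au_, au_]
    refine Finset.sum_congr rfl fun x _ => by rw [ku_w0 hS]
  have z : ∀ Q : R, Q.IsHomogeneous (2 * e) → μu Q = 0 := by
    refine hL (2 * e) μu (by omega) ?_ ?_ ?_
    · intro Q hQ
      rw [trans_eq, i1 _ (h2 (h1 (h2 hQ))), i2, i1 _ (h2 hQ), i2]
    · intro Q hQ
      rw [au_, au_]
      refine Finset.sum_congr rfl fun x _ => by rw [ku_s01 hS]
    · intro Q hQ
      rw [au_, au_]
      refine Finset.sum_congr rfl fun x _ => by rw [ku_s12 hS]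
  have hex : ∀ x : Le e, ex e x 0 + ex e x 1 + ex e x 2 = e := by
    rintro ⟨⟨b, c⟩, hx⟩
    simp only [Le, Finset.mem_filter, Finset.mem_product, Finset.mem_range] at hx
    simp [ex]
    omega
  have hu : ∀ x : Le e, (ku' (mo (ex e x))).IsHomogeneous (2 * e) := fun x =>
    sb_hom (X0.add X2) (X0.add X1) (X1.add X2) (mo_hom _ e (hex x))
  have ht : ∀ x : Le e, (kt' (mo (ex e x))).IsHomogeneous (2 * e) := fun x =>
    sb_hom (X0.add X2) ((X0.add X1).add (X1.add X2)) (X0.sub X2) (mo_hom _ e (hex x))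
  constructor
  · intro x
    have k1 := key _ (ht x)
    rw [z _ (ht x), add_zero, at_] at k1
    simp only [kt_kt'] at k1
    rw [Finset.sum_eq_single x (fun y _ hy => by rw [cl_ex e y x hy, mul_zero])
      (fun hx => absurd (Finset.mem_univ x) hx)] at k1
    exact (mul_eq_zero.1 k1).resolve_right (cl_mo_pos _).ne'
  · intro x
    have k1 := z _ (hu x)
    rw [au_] at k1
    simp only [ku_ku'] at k1
    rw [Finset.sum_eq_single x (fun y _ hy => by rw [cl_ex e y x hy, mul_zero])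
      (fun hx => absurd (Finset.mem_univ x) hx)] at k1
    exact (mul_eq_zero.1 k1).resolve_right (cl_mo_pos _).ne'

end Pool.Agent.K3h43.DSL
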