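import Pool.Agent.K3h43.DSL.Stm

set_option autoImplicit false

namespace Pool.Agent.K3h43.DSL

section
variable {P : ℚ → ℚ → ℚ → ℚ → ℚ → ℚ}

theorem as01 (h : Rel4 P) (a b c d e : ℚ) : P b a c d e = - P a b c d e := by
  have cyc := h.cyc
  have h1 := h.ins b a c d e
  have h2 := h.ins a b e d c
  have h3 := h.ins a d e b c
  have r1 := h.rev a b c d e
  have r2 := h.rev a b e d c
  have k1 : P b a c d e = P a c d e b := (cyc b a c d e).symm
  have k2 : P b c a d e = P a d e b c := ((cyc c a d e b).trans (cyc b c a d e)).symm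
  have k3 : P b c d a e = P a e b c d := (cyc e b c d a).trans (cyc a e b c d)
  have k4 : P b c d e a = P a b c d e := cyc a b c d e
  have k5 : P e d c b a = P a e d c b := cyc a e d c b
  have k6 : P c d e b a = P a c d e b := cyc a c d e b
  rw [k1, k2, k3, k4] at h1
  rw [k5] at r1
  rw [k6] at r2
  rw [k1]
  linear_combination (1 / 2 : ℚ) * h1 + (1 / 2 : ℚ) * h2 - (1 / 2 : ℚ) * h3 - (1 / 2 : ℚ) * r1 +
    (1 / 2 : ℚ) * r2

theorem as12 (h : Rel4 P) (a b c d e : ℚ) : P a c b d e = - P a b c d e := by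
  have h1 := as01 h b c d e a
  rw [h.cyc a b c d e, h.cyc a c b d e] at h1
  exact h1

theorem as23 (h : Rel4 P) (a b c d e : ℚ) : P a b d c e = - P a b c d e := by
  have h1 := as12 h b c d e a
  rw [h.cyc a b c d e, h.cyc a b d c e] at h1
  exact h1

/-- four points with `p₁ + p₄ = p₂ + p₃` -/
theorem four (h : Rel4 P) (x y s u v : ℚ) :
    P x (x + s) (y + s) u v + P x y (y + s) u v - P y (x + s) (y + s) u v -
      P x y (x + s) u v = 0 := by
  have U : ∀ x0 x1 x2 x3 s : ℚ, P x0 (x0 + s) (x1 + s) (x2 + s) (x3 + s) +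
      P x0 x1 (x1 + s) (x2 + s) (x3 + s) + P x0 x1 x2 (x2 + s) (x3 + s) +
      P x0 x1 x2 x3 (x3 + s) = 0 := by
    intro x0 x1 x2 x3 s
    have h1 := h.shu (-s) (x0 - x1) (x1 - x2) (x2 - x3)
    have t1 := h.tr (-s + (x0 - x1) + (x1 - x2) + (x2 - x3)) ((x0 - x1) + (x1 - x2) + (x2 - x3))
      ((x1 - x2) + (x2 - x3)) (x2 - x3) 0 (x3 + s)
    have t2 := h.tr (-s + (x0 - x1) + (x1 - x2) + (x2 - x3)) (-s + (x1 - x2) + (x2 - x3))
      ((x1 - x2) + (x2 - x3)) (x2 - x3) 0 (x3 + s)
    have t3 := h.tr (-s + (x0 - x1) + (x1 - x2) + (x2 - x3)) (-s + (x1 - x2) + (x2 - x3))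
      (-s + (x2 - x3)) (x2 - x3) 0 (x3 + s)
    have t4 := h.tr (-s + (x0 - x1) + (x1 - x2) + (x2 - x3)) (-s + (x1 - x2) + (x2 - x3))
      (-s + (x2 - x3)) (-s) 0 (x3 + s)
    rw [← t1, ← t2, ← t3, ← t4] at h1
    ring_nf at h1 ⊢
    exact h1
  have h1 := U x y (u - s) (v - s) s
  have h2 := U y x (u - s) (v - s) s
  have e1 := as01 h x y (u - s) (u - s + s) (v - s + s)
  have e2 := as01 h x y (u - s) (v - s) (v - s + s)
  have e3 := as01 h x y (x + s) (u - s + s) (v - s + s)
  have e4 := as12 h y (x + s) (y + s) (u - s + s) (v - s + s)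
  simp only [sub_add_cancel] at h1 h2 e1 e2 e3 e4
  linear_combination h1 + h2 - e1 - e2 - e3 - e4

theorem refl1 (h : Rel4 P) (a b c u v : ℚ) : P a (a + c - b) c u v = - P a b c u v := by
  -- p1 = a, p2 = b, p3 = a + c - b, p4 = c
  have h1 := four h a b (c - b) u v
  have h2 := four h a (a + c - b) (b - a) u v
  have e1 := as12 h a (a + c - b) b u v
  have e2 := as01 h (a + c - b) b c u v
  ring_nf at h1 h2 e1 e2 ⊢
  linear_combination (1 / 2 : ℚ) * h1 + (1 / 2 : ℚ) * h2 + (1 / 2 : ℚ) * e1 + (1 / 2 : ℚ) * e2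

theorem period (h : Rel4 P) (a b c u v : ℚ) : P a (b + (u - c)) c u v = P a b c u v := by
  have h1 := refl1 h a b c u v
  have h2 := refl1 h a (a + c - b) u c v
  have e1 := as23 h a (a + c - b) c u v
  have e2 := as23 h a (b + (u - c)) c u v
  have e3 : a + u - (a + c - b) = b + (u - c) := by ring
  -- `as23` swaps the arguments 3 and 4
  rw [e3] at h2
  linarith

end

theorem poly_period (p : Polynomial ℚ) (t : ℚ) (ht : t ≠ 0)
    (hp : ∀ x, p.eval (x + t) = p.eval x) (x y : ℚ) : p.eval x = p.eval y := by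
  have key : p = Polynomial.C (p.eval y) := by
    apply Polynomial.eq_of_infinite_eval_eq
    have hinj : Function.Injective (fun n : ℕ => y + n * t) := by
      intro m n hmn
      have : (m : ℚ) * t = n * t := by simpa using hmn
      exact_mod_cast mul_right_cancel₀ ht this
    refine (Set.infinite_range_of_injective hinj).mono ?_
    rintro _ ⟨n, rfl⟩
    induction n with
    | zero => simp
    | succ n ih =>
      simp only [Set.mem_setOf_eq, Polynomial.eval_C] at ih ⊢
      rw [show y + ((n + 1 : ℕ) : ℚ) * t = y + n * t + t by push_cast; ring, hp, ih]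
  rw [key]
  simp

theorem t_Van4 : Van4 := by
  intro P h hpol a b c d e
  by_cases hcd : d = c
  · subst hcd
    have := as23 h a b d d e
    linarith
  · obtain ⟨p, hp⟩ := hpol a c d e
    have h1 : ∀ x, P a x c d e = - p.eval x := by
      intro x
      rw [← hp, as01 h x a c d e]
    have h2 := poly_period p (d - c) (sub_ne_zero.2 hcd) (fun x => by
      have := period h a x c d e
      rw [h1, h1] at this
      linarith) b a
    have h3 := as01 h a a c d e
    have h4 : P a b c d e = P a a c d e := by rw [h1, h1, h2]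
    rw [h4]
    linarith

end Pool.Agent.K3h43.DSL
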