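import Pool.Agent.K3h43.DSL.Lay
import Pool.Agent.K3h43.DSL.Van

set_option autoImplicit false

namespace Pool.Agent.K3h43.DSL

open Pool.Agent.H777R4.DM Pool.Agent.R241.DL

theorem exists_blk (u : List (Fin 2)) : ∃ (a : ℕ) (l : List ℕ), (a :: l).length = u.count 0 + 1 ∧
    blk (a :: l) = u ∧ ∀ x ∈ a :: l, x ≤ u.length := by
  induction u with
  | nil => exact ⟨0, [], by simp, by simp [blk], by simp⟩
  | cons i u ih =>
    obtain ⟨a, l, h1, h2, h3⟩ := ih
    have hi : i = 1 ∨ i = 0 := by omega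
    rcases hi with rfl | rfl
    · refine ⟨a + 1, l, ?_, ?_, ?_⟩
      · simpa using h1
      · rw [← h2]
        cases l with
        | nil => simp [blk, List.replicate_succ]
        | cons b l => simp [blk, List.replicate_succ]
      · intro x hx
        rw [List.mem_cons] at hx
        rcases hx with rfl | hx
        · have := h3 a (by simp)
          simp
          omega
        · have := h3 x (by simp [hx])
          simp
          omega
    · refine ⟨0, a :: l, ?_, ?_, ?_⟩
      · rw [List.count_cons_self, List.length_cons, h1]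
      · rw [← h2]
        simp [blk]
      · intro x hx
        rw [List.mem_cons] at hx
        rcases hx with rfl | hx
        · simp
        · have := h3 x hx
          simp
          omega

/-- a univariate polynomial function that vanishes -/
theorem uni (n : ℕ) (c : ℕ → ℚ) (h : ∀ z : ℚ, ∑ a ∈ Finset.range n, c a * z ^ a = 0) :
    ∀ a < n, c a = 0 := by
  intro a ha
  have key : (∑ a ∈ Finset.range n, Polynomial.C (c a) * Polynomial.X ^ a : Polynomial ℚ) = 0 := by
    apply Polynomial.funext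
    intro z
    rw [Polynomial.eval_finset_sum]
    simpa using h z
  have h1 := congrArg (fun p => Polynomial.coeff p a) key
  simp only [Polynomial.finset_sum_coeff, Polynomial.coeff_C_mul, Polynomial.coeff_X_pow,
    Polynomial.coeff_zero] at h1
  rw [Finset.sum_eq_single a (by
    intro b _ hb
    rw [if_neg (Ne.symm hb), mul_zero]) (by
    intro h2
    exact absurd (Finset.mem_range.2 ha) h2)] at h1
  simpa using h1

theorem uni5 (n : ℕ) (F : ℕ → ℕ → ℕ → ℕ → ℕ → ℚ)
    (h : ∀ z0 z1 z2 z3 z4 : ℚ, S5 n (fun a b c d e => F a b c d e *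
      (z0 ^ a * z1 ^ b * z2 ^ c * z3 ^ d * z4 ^ e)) = 0) :
    ∀ a < n, ∀ b < n, ∀ c < n, ∀ d < n, ∀ e < n, F a b c d e = 0 := by
  intro a ha b hb c hc d hd e he
  have h0 : ∀ z1 z2 z3 z4 : ℚ, ∑ b ∈ Finset.range n, ∑ c ∈ Finset.range n, ∑ d ∈ Finset.range n,
      ∑ e ∈ Finset.range n, F a b c d e * (z1 ^ b * z2 ^ c * z3 ^ d * z4 ^ e) = 0 := by
    intro z1 z2 z3 z4
    refine uni n (fun a => ∑ b ∈ Finset.range n, ∑ c ∈ Finset.range n, ∑ d ∈ Finset.range n,
      ∑ e ∈ Finset.range n, F a b c d e * (z1 ^ b * z2 ^ c * z3 ^ d * z4 ^ e)) ?_ a ha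
    intro z
    rw [← h z z1 z2 z3 z4]
    unfold S5
    simp only [Finset.sum_mul]
    refine Finset.sum_congr rfl fun a _ => Finset.sum_congr rfl fun b _ =>
      Finset.sum_congr rfl fun c _ => Finset.sum_congr rfl fun d _ =>
      Finset.sum_congr rfl fun e _ => by ring
  have h1 : ∀ z2 z3 z4 : ℚ, ∑ c ∈ Finset.range n, ∑ d ∈ Finset.range n,
      ∑ e ∈ Finset.range n, F a b c d e * (z2 ^ c * z3 ^ d * z4 ^ e) = 0 := by
    intro z2 z3 z4
    refine uni n (fun b => ∑ c ∈ Finset.range n, ∑ d ∈ Finset.range n,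
      ∑ e ∈ Finset.range n, F a b c d e * (z2 ^ c * z3 ^ d * z4 ^ e)) ?_ b hb
    intro z
    rw [← h0 z z2 z3 z4]
    simp only [Finset.sum_mul]
    refine Finset.sum_congr rfl fun b _ =>
      Finset.sum_congr rfl fun c _ => Finset.sum_congr rfl fun d _ =>
      Finset.sum_congr rfl fun e _ => by ring
  have h2 : ∀ z3 z4 : ℚ, ∑ d ∈ Finset.range n,
      ∑ e ∈ Finset.range n, F a b c d e * (z3 ^ d * z4 ^ e) = 0 := by
    intro z3 z4
    refine uni n (fun c => ∑ d ∈ Finset.range n,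
      ∑ e ∈ Finset.range n, F a b c d e * (z3 ^ d * z4 ^ e)) ?_ c hc
    intro z
    rw [← h1 z z3 z4]
    simp only [Finset.sum_mul]
    refine Finset.sum_congr rfl fun c _ => Finset.sum_congr rfl fun d _ =>
      Finset.sum_congr rfl fun e _ => by ring
  have h3 : ∀ z4 : ℚ, ∑ e ∈ Finset.range n, F a b c d e * z4 ^ e = 0 := by
    intro z4
    refine uni n (fun d => ∑ e ∈ Finset.range n, F a b c d e * z4 ^ e) ?_ d hd
    intro z
    rw [← h2 z z4]
    simp only [Finset.sum_mul]
    refine Finset.sum_congr rfl fun d _ => Finset.sum_congr rfl fun e _ => by ring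
  exact uni n (fun e => F a b c d e) h3 e he

theorem uni4 (n : ℕ) (F : ℕ → ℕ → ℕ → ℕ → ℚ)
    (h : ∀ z0 z1 z2 z3 : ℚ, S4 n (fun a b c d => F a b c d *
      (z0 ^ a * z1 ^ b * z2 ^ c * z3 ^ d)) = 0) :
    ∀ a < n, ∀ b < n, ∀ c < n, ∀ d < n, F a b c d = 0 := by
  intro a ha b hb c hc d hd
  have h0 : ∀ z1 z2 z3 : ℚ, ∑ b ∈ Finset.range n, ∑ c ∈ Finset.range n, ∑ d ∈ Finset.range n,
      F a b c d * (z1 ^ b * z2 ^ c * z3 ^ d) = 0 := by
    intro z1 z2 z3
    refine uni n (fun a => ∑ b ∈ Finset.range n, ∑ c ∈ Finset.range n, ∑ d ∈ Finset.range n,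
      F a b c d * (z1 ^ b * z2 ^ c * z3 ^ d)) ?_ a ha
    intro z
    rw [← h z z1 z2 z3]
    unfold S4
    simp only [Finset.sum_mul]
    refine Finset.sum_congr rfl fun a _ => Finset.sum_congr rfl fun b _ =>
      Finset.sum_congr rfl fun c _ => Finset.sum_congr rfl fun d _ => by ring
  have h1 : ∀ z2 z3 : ℚ, ∑ c ∈ Finset.range n, ∑ d ∈ Finset.range n,
      F a b c d * (z2 ^ c * z3 ^ d) = 0 := by
    intro z2 z3
    refine uni n (fun b => ∑ c ∈ Finset.range n, ∑ d ∈ Finset.range n,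
      F a b c d * (z2 ^ c * z3 ^ d)) ?_ b hb
    intro z
    rw [← h0 z z2 z3]
    simp only [Finset.sum_mul]
    refine Finset.sum_congr rfl fun b _ =>
      Finset.sum_congr rfl fun c _ => Finset.sum_congr rfl fun d _ => by ring
  have h2 : ∀ z3 : ℚ, ∑ d ∈ Finset.range n, F a b c d * z3 ^ d = 0 := by
    intro z3
    refine uni n (fun c => ∑ d ∈ Finset.range n, F a b c d * z3 ^ d) ?_ c hc
    intro z
    rw [← h1 z z3]
    simp only [Finset.sum_mul]
    refine Finset.sum_congr rfl fun c _ => Finset.sum_congr rfl fun d _ => by ring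
  exact uni n (fun d => F a b c d) h2 d hd

theorem t_Zero4 (hY : Layer4) (hV : Van4) (hE : Exp5) : Zero4 := by
  intro ψ N hN hdm hlen hm u hu
  have E : ∀ z0 z1 z2 z3 z4 : ℚ, ev [z0, z1, z2, z3, z4] ψ = S5 (N + 1) (fun a b c d e =>
    co ψ (blk [a, b, c, d, e]) * (z0 ^ a * z1 ^ b * z2 ^ c * z3 ^ d * z4 ^ e)) := hE ψ N hlen
  have hR := hY ψ N hN hdm hlen hm
  have h0 := hV _ hR (by
    intro z1 z2 z3 z4
    refine ⟨∑ a ∈ Finset.range (N + 1), Polynomial.C (∑ b ∈ Finset.range (N + 1),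
      ∑ c ∈ Finset.range (N + 1), ∑ d ∈ Finset.range (N + 1), ∑ e ∈ Finset.range (N + 1),
      co ψ (blk [a, b, c, d, e]) * (z1 ^ b * z2 ^ c * z3 ^ d * z4 ^ e)) * Polynomial.X ^ a, ?_⟩
    intro z
    show ev [z, z1, z2, z3, z4] ψ = _
    rw [E, Polynomial.eval_finset_sum]
    unfold S5
    refine Finset.sum_congr rfl fun a _ => ?_
    simp only [Polynomial.eval_mul, Polynomial.eval_C, Polynomial.eval_pow, Polynomial.eval_X,
      Finset.sum_mul]
    refine Finset.sum_congr rfl fun b _ =>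
      Finset.sum_congr rfl fun c _ => Finset.sum_congr rfl fun d _ =>
      Finset.sum_congr rfl fun e _ => by ring)
  have h1 := uni5 (N + 1) (fun a b c d e => co ψ (blk [a, b, c, d, e])) (by
    intro z0 z1 z2 z3 z4
    rw [← E]
    exact h0 z0 z1 z2 z3 z4)
  by_contra hcon
  have h4 : u.count 0 = 4 := by
    have := hm u hu
    omega
  obtain ⟨a, l, k1, k2, k3⟩ := exists_blk u
  have hlu := hlen u hu
  rw [h4] at k1
  obtain ⟨b, l, rfl⟩ := List.exists_cons_of_length_eq_add_one (show l.length = 3 + 1 by simpa using k1)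
  obtain ⟨c, l, rfl⟩ := List.exists_cons_of_length_eq_add_one (show l.length = 2 + 1 by simpa using k1)
  obtain ⟨d, l, rfl⟩ := List.exists_cons_of_length_eq_add_one (show l.length = 1 + 1 by simpa using k1)
  obtain ⟨e, l, rfl⟩ := List.exists_cons_of_length_eq_add_one (show l.length = 0 + 1 by simpa using k1)
  have : l = [] := List.length_eq_zero_iff.1 (by simpa using k1)
  subst this
  apply hu
  rw [← k2]
  have b1 : ∀ x ∈ [a, b, c, d, e], x < N + 1 := fun x hx => by
    have := k3 x hx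
    omega
  exact h1 a (b1 a (by simp)) b (b1 b (by simp)) c (b1 c (by simp)) d (b1 d (by simp)) e
    (b1 e (by simp))

end Pool.Agent.K3h43.DSL
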